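import Pool.Agent.Q297.GA7

/-!
# MP_002529_pr, Q1: the quenched survival function is analytic on `[p_c, 1)`
-/

set_option autoImplicit false

namespace Pool.Agent.Results.MP_002529_pr.QuenchedAnalytic

open MeasureTheory Q292.GWS

/-- Let `μ` be an offspring law with exponential moments and mean `m > 1`. Almost surely the
quenched survival function `p ↦ g(T, p)` of Bernoulli percolation on the Galton-Watson tree `T`
agrees on `[1/m, 1)` with a real-analytic function defined on an open interval `(a, 1)` with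
`a < 1/m`. -/
theorem result (μ : Measure ℕ) [IsProbabilityMeasure μ]
    (hexp : ∃ t : ℝ, 0 < t ∧ Integrable (fun k : ℕ => Real.exp (t * k)) μ)
    (hm : 1 < ∫ k : ℕ, (k : ℝ) ∂μ) :
    ∀ᵐ N ∂(gwLaw μ), ∃ a < 1 / ∫ k : ℕ, (k : ℝ) ∂μ, ∃ F : ℝ → ℝ,
      AnalyticOnNhd ℝ F (Set.Ioo a 1) ∧
        ∀ p ∈ Set.Ico (1 / ∫ k : ℕ, (k : ℝ) ∂μ) 1, quenched N p = F p := by
  obtain ⟨t, ht, h⟩ := hexp
  exact Pool.Agent.Q297.GA.main ht h hm

end Pool.Agent.Results.MP_002529_pr.QuenchedAnalytic
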